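import Pool.Agent.Work.MP_db9399_all.Interface

/-!
# Block RND: one random round
-/

set_option autoImplicit false

namespace Pool.Agent.Work.MP_db9399_all

open Finset Classical

universe u

namespace RND

theorem pr_nonneg {Ω : Type u} [Fintype Ω] (E : Ω → Prop) : 0 ≤ pr E := by
  unfold pr; positivity

section indep

variable {V : Type u}

theorem indep (g : V → V) (n : ℕ) : ∀ M' : Finset V, M'.card = n → (∀ y ∈ M', g y ≠ y) →
    ∃ A ⊆ M', M'.card ≤ 3 * A.card ∧ ∀ y ∈ A, g y ∉ A := by
  induction n using Nat.strong_induction_on with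
  | _ n ih =>
    intro M' hn hg
    rcases Finset.eq_empty_or_nonempty M' with h0 | h0
    · subst h0
      exact ⟨∅, by simp, by simp, by simp⟩
    · obtain ⟨y, hy, hy1⟩ := Finset.exists_card_fiber_le_of_card_le_mul (f := g) (s := M')
        (t := M') (n := 1) h0 (by simp)
      let R : Finset V := insert y (insert (g y) (M'.filter (fun x => g x = y)))
      have hR : R.card ≤ 3 := by
        have h1 := Finset.card_insert_le y (insert (g y) (M'.filter (fun x => g x = y)))
        have h2 := Finset.card_insert_le (g y) (M'.filter (fun x => g x = y))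
        have h3 : (M'.filter (fun x => g x = y)).card ≤ 1 := hy1
        simp only [R]
        omega
      have hlt : (M' \ R).card < n := by
        rw [← hn]
        apply Finset.card_lt_card
        refine ⟨Finset.sdiff_subset, fun h => ?_⟩
        have := h hy
        simp [R] at this
      obtain ⟨A, hA, hA1, hA2⟩ := ih _ hlt (M' \ R) rfl (fun x hx => hg x (Finset.mem_sdiff.1 hx).1)
      have hyA : y ∉ A := by
        intro h
        have := (Finset.mem_sdiff.1 (hA h)).2
        simp [R] at this
      refine ⟨insert y A, ?_, ?_, ?_⟩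
      · apply Finset.insert_subset hy
        exact hA.trans Finset.sdiff_subset
      · rw [Finset.card_insert_of_notMem hyA]
        have h1 : M'.card ≤ (M' \ R).card + R.card := by
          have h2 : M' ⊆ (M' \ R) ∪ R := by
            intro x hx
            by_cases hxR : x ∈ R
            · exact Finset.mem_union_right _ hxR
            · exact Finset.mem_union_left _ (Finset.mem_sdiff.2 ⟨hx, hxR⟩)
          exact (Finset.card_le_card h2).trans (Finset.card_union_le _ _)
        omega
      · intro x hx hgx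
        rcases Finset.mem_insert.1 hx with rfl | hx
        · rcases Finset.mem_insert.1 hgx with h | h
          · exact hg x hy h
          · have := (Finset.mem_sdiff.1 (hA h)).2
            simp [R] at this
        · rcases Finset.mem_insert.1 hgx with h | h
          · have h2 := Finset.mem_sdiff.1 (hA hx)
            apply h2.2
            simp [R, h2.1, h]
          · exact hA2 x hx h

end indep

section packs

variable {V : Type u} [Fintype V] {M : ℕ}

theorem triv_pack (T : ℝ) (Sc : Finset V) :
    PackI (M := M) T Sc 0 (fun _ => True) :=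
  ⟨PEmpty, inferInstance, fun k => k.elim, fun k => k.elim, fun k => k.elim, fun k => k.elim,
    fun k => k.elim, by simp, fun _ _ => trivial⟩

theorem pair_pr (hM : 0 < M) (x x' : V) (hx : x ≠ x') (t1 t2 : ℕ) :
    pr (fun f : V → Fin M => (f x : ℕ) = t1 ∧ (f x' : ℕ) = t2) ≤ 1 / (M : ℝ) ^ 2 := by
  have : Nonempty (Fin M) := ⟨⟨0, hM⟩⟩
  have hMr : (0 : ℝ) < M := by exact_mod_cast hM
  have hcard : (0 : ℝ) < Fintype.card (V → Fin M) := by exact_mod_cast Fintype.card_pos
  let S : V → Finset (Fin M) := fun y => if y = x then univ.filter (fun a => (a : ℕ) = t1) else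
    if y = x' then univ.filter (fun a => (a : ℕ) = t2) else univ
  have h1 : univ.filter (fun f : V → Fin M => (f x : ℕ) = t1 ∧ (f x' : ℕ) = t2) ⊆
      Fintype.piFinset S := by
    intro f hf
    have hf' := (Finset.mem_filter.1 hf).2
    rw [Fintype.mem_piFinset]
    intro y
    by_cases hy : y = x
    · subst hy; simp [S, hf'.1]
    · by_cases hy' : y = x'
      · subst hy'; simp [S, hy, hf'.2]
      · simp [S, hy, hy']
  have hone : ∀ t : ℕ, (univ.filter (fun a : Fin M => (a : ℕ) = t)).card ≤ 1 := by
    intro t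
    apply Finset.card_le_one.2
    intro a ha b hb
    exact Fin.ext ((Finset.mem_filter.1 ha).2.trans (Finset.mem_filter.1 hb).2.symm)
  have h2 : ∀ y, ((S y).card : ℝ) ≤ (M : ℝ) * ((if y = x then 1 / (M : ℝ) else 1) *
      (if y = x' then 1 / (M : ℝ) else 1)) := by
    intro y
    by_cases hy : y = x
    · have hy2 : y ≠ x' := hy ▸ hx
      simp only [S, hy, hx, if_true, if_false, mul_one]
      rw [mul_one_div_cancel hMr.ne']
      exact_mod_cast hone t1
    · by_cases hy' : y = x'
      · simp only [S, hy', hx.symm, if_true, if_false, one_mul]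
        rw [mul_one_div_cancel hMr.ne']
        exact_mod_cast hone t2
      · simp [S, hy, hy']
  rw [pr, div_le_iff₀ hcard]
  refine le_trans (b := ((Fintype.piFinset S).card : ℝ))
    (Nat.cast_le.2 (Finset.card_le_card (by convert h1))) ?_
  calc ((Fintype.piFinset S).card : ℝ) = ∏ y, ((S y).card : ℝ) := by
        rw [Fintype.card_piFinset]; push_cast; rfl
    _ ≤ ∏ y, ((M : ℝ) * ((if y = x then 1 / (M : ℝ) else 1) *
          (if y = x' then 1 / (M : ℝ) else 1))) :=
        Finset.prod_le_prod (fun y _ => by positivity) fun y _ => h2 y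
    _ = 1 / (M : ℝ) ^ 2 * (Fintype.card (V → Fin M) : ℝ) := by
        rw [Finset.prod_mul_distrib (f := fun _ : V => (M : ℝ)),
          Finset.prod_mul_distrib (f := fun y : V => if y = x then 1 / (M : ℝ) else 1),
          Finset.prod_const, Finset.prod_ite_eq', Finset.prod_ite_eq']
        simp only [mem_univ, if_true, Fintype.card_fun, Fintype.card_fin, card_univ]
        push_cast
        ring

theorem pair_pack (hM : 0 < M) (T : ℝ) (x x' : V) (hx : x ≠ x') (t1 t2 : ℕ) :
    PackI (M := M) T {x, x'} (1 / (M : ℝ) ^ 2 * Real.exp (4 * T))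
      (fun f => ¬ ((f x : ℕ) = t1 ∧ (f x' : ℕ) = t2)) := by
  refine ⟨PUnit, inferInstance, fun _ => {x, x'}, fun _ f => (f x : ℕ) = t1 ∧ (f x' : ℕ) = t2,
    ?_, ?_, ?_, ?_, ?_⟩
  · intro _ f f' h
    have h1 := h x (by simp)
    have h2 := h x' (by simp)
    simp only [h1, h2]
  · intro _; exact ⟨x, by simp⟩
  · intro _; exact le_rfl
  · rw [Fintype.sum_unique, Finset.card_pair hx]
    have h1 := pair_pr hM x x' hx t1 t2
    have h2 : 2 * T * ((2 : ℕ) : ℝ) = 4 * T := by push_cast; ring
    rw [h2]
    exact mul_le_mul_of_nonneg_right h1 (Real.exp_pos _).le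
  · intro f h
    exact h PUnit.unit

end packs

theorem choose_bound (n a : ℕ) (r : ℝ) (ha : 0 < a) (hr : (n : ℝ) ≤ r * a) :
    (n.choose a : ℝ) ≤ (Real.exp 1 * r) ^ a := by
  have har : (0 : ℝ) < a := by exact_mod_cast ha
  have h1 : (n.choose a : ℝ) ≤ (n : ℝ) ^ a / (a.factorial : ℝ) := Nat.choose_le_pow_div a n
  have h2 := Real.pow_div_factorial_le_exp (a : ℝ) har.le a
  have hf : (0 : ℝ) < (a.factorial : ℝ) := by exact_mod_cast Nat.factorial_pos a
  have h3 : (a : ℝ) ^ a ≤ Real.exp a * (a.factorial : ℝ) := by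
    rwa [div_le_iff₀ hf] at h2
  have h4 : (n : ℝ) ^ a ≤ (r * a) ^ a := pow_le_pow_left₀ (by positivity) hr a
  have hr0 : 0 ≤ r := by
    by_contra hcon
    push Not at hcon
    have : r * a < 0 := mul_neg_of_neg_of_pos hcon har
    have : (0 : ℝ) ≤ n := by positivity
    linarith
  calc (n.choose a : ℝ) ≤ (n : ℝ) ^ a / (a.factorial : ℝ) := h1
    _ ≤ (r * a) ^ a / (a.factorial : ℝ) := div_le_div_of_nonneg_right h4 hf.le
    _ ≤ (Real.exp 1 * r) ^ a := by
        rw [div_le_iff₀ hf, mul_pow, mul_pow, ← Real.exp_nat_mul, mul_one]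
        have := mul_le_mul_of_nonneg_left h3 (show 0 ≤ r ^ a by positivity)
        linarith

section dem

variable {V : Type u} [Fintype V]

theorem dem_pack (hH : Stmt_RNH.{u}) (hK : Stmt_RNK.{u}) (om m : ℝ) (hom : 0 < om)
    (hom1 : om ≤ 1) (hm : 0 < m) (q : ℕ) (hq : 10000 ≤ om * q) (Δ N : ℕ) (hΔ0 : 2 * q ≤ Δ)
    (hΔN : Δ ≤ N) (Md : Finset V) (B : V → Finset ℕ) (Kl : V → Finset V)
    (hMd : m * Δ ≤ (Md.card : ℝ)) (hMd1 : Md.card ≤ Δ)
    (hB : ∀ y ∈ Md, B y ⊆ range (q * N) ∧ om * N ≤ ((B y).card : ℝ))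
    (hKl : ∀ y ∈ Md, (Kl y).card ≤ 3 * Δ ∧ y ∉ Kl y) :
    PackI (M := q * N) (om / (100 * q)) (Md ∪ Md.biUnion Kl)
      (2 * Real.exp (-(om * m / (30 * q)) * Δ))
      (fun f => om / (4 * q) * (Md.card : ℝ) ≤
        ((Md.filter (fun y => (f y : ℕ) ∈ B y ∧ ∀ w ∈ Kl y, (f w : ℕ) = f y → N ≤ (f y : ℕ))).card
          : ℝ)) := by
  have hq0 : 0 < q := by
    rcases Nat.eq_zero_or_pos q with h | h
    · rw [h] at hq; norm_num at hq
    · exact h
  have hqr : (0 : ℝ) < q := by exact_mod_cast hq0
  have hq1 : (10000 : ℝ) ≤ q := by nlinarith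
  have hq2 : 2 ≤ q := by
    have : (2 : ℝ) ≤ q := by linarith
    exact_mod_cast this
  have hΔpos : 0 < Δ := by omega
  have hΔr : (0 : ℝ) < Δ := by exact_mod_cast hΔpos
  have hNpos : 0 < N := by omega
  have hNr : (0 : ℝ) < N := by exact_mod_cast hNpos
  have hM : 0 < q * N := Nat.mul_pos hq0 hNpos
  have hMdr : (0 : ℝ) < (Md.card : ℝ) := lt_of_lt_of_le (by positivity) hMd
  have hMdne : Md.Nonempty := by
    rw [← Finset.card_pos]; exact_mod_cast hMdr
  set a : ℕ := ⌈om / (16 * q) * (Md.card : ℝ)⌉₊ with ha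
  have ha0 : 0 < a := Nat.ceil_pos.2 (by positivity)
  have har : (0 : ℝ) < a := by exact_mod_cast ha0
  have ha1 : om / (16 * q) * (Md.card : ℝ) ≤ a := Nat.le_ceil _
  have ha2 : (a : ℝ) < om / (16 * q) * (Md.card : ℝ) + 1 := Nat.ceil_lt_add_one (by positivity)
  have hMdle : (Md.card : ℝ) ≤ Δ := by exact_mod_cast hMd1
  have hqa : (q : ℝ) * a ≤ Δ := by
    have h1 : (q : ℝ) * a ≤ q * (om / (16 * q) * (Md.card : ℝ) + 1) :=
      mul_le_mul_of_nonneg_left ha2.le hqr.le
    have h2 : (q : ℝ) * (om / (16 * q) * (Md.card : ℝ) + 1) = om * Md.card / 16 + q := by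
      field_simp
    have h3 : (2 : ℝ) * q ≤ Δ := by exact_mod_cast hΔ0
    have h4 : om * (Md.card : ℝ) ≤ Δ := by nlinarith
    rw [h2] at h1
    linarith
  let S : Finset V → V → Finset V := fun A y => if y ∈ A then Kl y \ A else {y}
  let κ : Type u := Option ((A : {A // A ∈ powersetCard a Md}) × {g // g ∈ Fintype.piFinset (S A.1)})
  let Q : κ → Finset V := fun k => k.elim Md (fun p => p.1.1 ∪ p.1.1.image p.2.1)
  let B' : V → Finset (Fin (q * N)) := fun y => univ.filter (fun b => (b : ℕ) ∈ B y)
  let E : κ → (V → Fin (q * N)) → Prop := fun k => k.elim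
    (fun f => ((Md.filter (fun y => f y ∈ B' y)).card : ℝ) < (om / q) / 2 * Md.card)
    (fun p f => ∀ y ∈ p.1.1, f (p.2.1 y) = f y ∧ (f y : ℕ) < N)
  refine ⟨κ, inferInstance, Q, E, ?_, ?_, ?_, ?_, ?_⟩
  · rintro (_ | p) f f' h
    · have h1 : Md.filter (fun y => f y ∈ B' y) = Md.filter (fun y => f' y ∈ B' y) := by
        apply Finset.filter_congr
        intro y hy
        rw [h y hy]
      simp only [E, Option.elim, h1]
    · apply propext
      have h1 : ∀ y ∈ p.1.1, f y = f' y := fun y hy => h y (Finset.mem_union_left _ hy)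
      have h2 : ∀ y ∈ p.1.1, f (p.2.1 y) = f' (p.2.1 y) := fun y hy =>
        h _ (Finset.mem_union_right _ (Finset.mem_image_of_mem _ hy))
      constructor
      · intro hE y hy
        have := hE y hy
        rw [← h1 y hy, ← h2 y hy]
        exact this
      · intro hE y hy
        have := hE y hy
        rw [h1 y hy, h2 y hy]
        exact this
  · rintro (_ | p)
    · exact hMdne
    · have h1 := (Finset.mem_powersetCard.1 p.1.2).2
      have h2 : p.1.1.Nonempty := by
        rw [← Finset.card_pos, h1]; exact ha0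
      exact h2.mono Finset.subset_union_left
  · rintro (_ | p)
    · exact Finset.subset_union_left
    · have h1 := (Finset.mem_powersetCard.1 p.1.2).1
      apply Finset.union_subset
      · exact h1.trans Finset.subset_union_left
      · intro x hx
        obtain ⟨y, hy, rfl⟩ := Finset.mem_image.1 hx
        have h2 := (Fintype.mem_piFinset.1 p.2.2) y
        simp only [S, hy, if_true] at h2
        exact Finset.mem_union_right _
          (Finset.mem_biUnion.2 ⟨y, h1 hy, (Finset.mem_sdiff.1 h2).1⟩)
  · rw [Fintype.sum_option]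
    have hhit : pr (E none) * Real.exp (2 * (om / (100 * q)) * ((Q none).card : ℝ)) ≤
        Real.exp (-(om * m / (30 * q)) * Δ) := by
      have h1 := hH V (q * N) Md B' (om / q) hM (by positivity)
        (by rw [div_le_one hqr]; linarith) (by
          intro y hy
          have h2 := hB y hy
          have h3 : B y ⊆ (B' y).image (fun b : Fin (q * N) => (b : ℕ)) := by
            intro b hb
            have h4 := Finset.mem_range.1 (h2.1 hb)
            exact Finset.mem_image.2 ⟨⟨b, h4⟩, by simp [B', hb], rfl⟩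
          have h5 : (B y).card ≤ (B' y).card := (Finset.card_le_card h3).trans Finset.card_image_le
          have h6 : ((B y).card : ℝ) ≤ ((B' y).card : ℝ) := by exact_mod_cast h5
          have h7 : om / q * ((q * N : ℕ) : ℝ) = om * N := by
            push_cast; field_simp
          rw [h7]
          exact h2.2.trans h6)
      calc pr (E none) * Real.exp (2 * (om / (100 * q)) * ((Q none).card : ℝ))
          ≤ Real.exp (-(3 / 20) * (om / q) * Md.card) *
            Real.exp (2 * (om / (100 * q)) * (Md.card : ℝ)) :=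
            mul_le_mul_of_nonneg_right h1 (Real.exp_pos _).le
        _ = Real.exp (-(13 / 100) * ((om / q) * Md.card)) := by
            rw [← Real.exp_add]; congr 1; field_simp; ring
        _ ≤ Real.exp (-(om * m / (30 * q)) * Δ) := by
            apply Real.exp_le_exp.2
            have h8 : om * m / (30 * q) * Δ = (1 / 30) * ((om / q) * (m * Δ)) := by
              field_simp
            have h9 : (om / q) * (m * Δ) ≤ (om / q) * Md.card :=
              mul_le_mul_of_nonneg_left hMd (by positivity)
            have h10 : 0 ≤ (om / q) * (m * Δ) := by positivity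
            rw [neg_mul, neg_mul, h8]
            linarith
    have hkill : ∑ p : (A : {A // A ∈ powersetCard a Md}) × {g // g ∈ Fintype.piFinset (S A.1)},
        pr (E (some p)) * Real.exp (2 * (om / (100 * q)) * ((Q (some p)).card : ℝ)) ≤
        Real.exp (-(om * m / (30 * q)) * Δ) := by
      rw [Fintype.sum_sigma]
      have h1 : ∀ A : {A // A ∈ powersetCard a Md},
          ∑ g : {g // g ∈ Fintype.piFinset (S A.1)}, pr (E (some ⟨A, g⟩)) *
            Real.exp (2 * (om / (100 * q)) * ((Q (some ⟨A, g⟩)).card : ℝ)) ≤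
          (4 * (Δ : ℝ) / q) ^ a * (1 / ((q : ℝ) * N)) ^ a * Real.exp 1 ^ a := by
        intro A
        have hA := Finset.mem_powersetCard.1 A.2
        have h2 := hK V N q A.1 Kl Δ hNpos hq2 (fun y hy => (hKl y (hA.1 hy)).1)
          (by rw [hA.2]; exact hqa)
        rw [hA.2] at h2
        have h3 : ∀ g : {g // g ∈ Fintype.piFinset (S A.1)}, pr (E (some ⟨A, g⟩)) *
            Real.exp (2 * (om / (100 * q)) * ((Q (some ⟨A, g⟩)).card : ℝ)) ≤
            pr (E (some ⟨A, g⟩)) * Real.exp 1 ^ a := by
          intro g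
          apply mul_le_mul_of_nonneg_left _ (pr_nonneg _)
          rw [← Real.exp_nat_mul, mul_one]
          apply Real.exp_le_exp.2
          have h4 : (Q (some ⟨A, g⟩)).card ≤ 2 * a := by
            have h5 : (A.1 ∪ A.1.image g.1).card ≤ A.1.card + (A.1.image g.1).card :=
              Finset.card_union_le _ _
            have h6 : (A.1.image g.1).card ≤ A.1.card := Finset.card_image_le
            change (A.1 ∪ A.1.image g.1).card ≤ 2 * a
            omega
          have h5 : ((Q (some ⟨A, g⟩)).card : ℝ) ≤ 2 * a := by exact_mod_cast h4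
          have h6 : 2 * (om / (100 * q)) ≤ 1 / 2 := by
            have : om / (100 * q) ≤ 1 / 4 := by
              rw [div_le_iff₀ (by positivity)]
              nlinarith
            linarith
          have h7 : 0 ≤ 2 * (om / (100 * q)) := by positivity
          calc 2 * (om / (100 * q)) * ((Q (some ⟨A, g⟩)).card : ℝ)
              ≤ 2 * (om / (100 * q)) * (2 * a) := mul_le_mul_of_nonneg_left h5 h7
            _ ≤ 1 / 2 * (2 * a) := mul_le_mul_of_nonneg_right h6 (by positivity)
            _ = a := by ring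
        refine (Finset.sum_le_sum fun g _ => h3 g).trans ?_
        rw [← Finset.sum_mul]
        apply mul_le_mul_of_nonneg_right _ (by positivity)
        refine le_trans (le_of_eq ?_) h2
        exact Finset.sum_coe_sort (Fintype.piFinset (S A.1)) (fun g =>
          pr (fun f : V → Fin (q * N) => ∀ y ∈ A.1, f (g y) = f y ∧ (f y : ℕ) < N))
      refine (Finset.sum_le_sum fun A _ => h1 A).trans ?_
      rw [Finset.sum_const, Finset.card_univ, Fintype.card_coe, Finset.card_powersetCard,
        nsmul_eq_mul]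
      have h8 := choose_bound Md.card a (16 * q / om) ha0 (by
        have h9 : (Md.card : ℝ) = 16 * q / om * (om / (16 * q) * (Md.card : ℝ)) := by
          field_simp
        rw [h9]
        exact mul_le_mul_of_nonneg_left ha1 (by positivity))
      calc (Md.card.choose a : ℝ) * ((4 * (Δ : ℝ) / q) ^ a * (1 / ((q : ℝ) * N)) ^ a *
            Real.exp 1 ^ a)
          ≤ (Real.exp 1 * (16 * q / om)) ^ a * ((4 * (Δ : ℝ) / q) ^ a *
            (1 / ((q : ℝ) * N)) ^ a * Real.exp 1 ^ a) :=
            mul_le_mul_of_nonneg_right h8 (by positivity)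
        _ = (64 * Real.exp 1 ^ 2 * (Δ / N) / (om * q)) ^ a := by
            rw [← mul_pow, ← mul_pow, ← mul_pow]
            congr 1
            field_simp
            ring
        _ ≤ (1 / 2) ^ a := by
            apply pow_le_pow_left₀ (by positivity)
            have h10 : (Δ : ℝ) / N ≤ 1 := by
              rw [div_le_one hNr]; exact_mod_cast hΔN
            have h11 : Real.exp 1 ≤ 3 := by
              have := Real.exp_one_lt_d9
              linarith
            have h12 : Real.exp 1 ^ 2 ≤ 9 := by
              have := Real.exp_pos 1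
              nlinarith
            rw [div_le_iff₀ (by positivity)]
            have h13 : 64 * Real.exp 1 ^ 2 * ((Δ : ℝ) / N) ≤ 64 * 9 * 1 := by
              apply mul_le_mul _ h10 (by positivity) (by norm_num)
              linarith
            linarith
        _ = Real.exp (-(Real.log 2 * a)) := by
            rw [one_div, inv_pow, Real.exp_neg, mul_comm, Real.exp_nat_mul,
              Real.exp_log (by norm_num)]
        _ ≤ Real.exp (-(om * m / (30 * q)) * Δ) := by
            apply Real.exp_le_exp.2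
            have h14 := Real.log_two_gt_d9
            have h15 : om * m / (30 * q) * Δ = (16 / 30) * (om / (16 * q) * (m * Δ)) := by
              field_simp
            have h16 : om / (16 * q) * (m * Δ) ≤ a :=
              (mul_le_mul_of_nonneg_left hMd (by positivity)).trans ha1
            rw [neg_mul, h15]
            nlinarith
    linarith
  · intro f hf
    have h1 : ¬ ((Md.filter (fun y => f y ∈ B' y)).card : ℝ) < (om / q) / 2 * Md.card := hf none
    push Not at h1
    by_contra hcon
    push Not at hcon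
    -- killed elements
    let M' : Finset V := Md.filter (fun y => ∃ w ∈ Kl y, (f w : ℕ) = f y ∧ (f y : ℕ) < N)
    have h2 : Md.filter (fun y => f y ∈ B' y) ⊆
        Md.filter (fun y => (f y : ℕ) ∈ B y ∧ ∀ w ∈ Kl y, (f w : ℕ) = f y → N ≤ (f y : ℕ)) ∪ M' := by
      intro y hy
      have hy1 := Finset.mem_filter.1 hy
      have hy2 : (f y : ℕ) ∈ B y := by simpa [B'] using hy1.2
      by_cases hk : ∃ w ∈ Kl y, (f w : ℕ) = f y ∧ (f y : ℕ) < N
      · exact Finset.mem_union_right _ (Finset.mem_filter.2 ⟨hy1.1, hk⟩)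
      · push Not at hk
        exact Finset.mem_union_left _ (Finset.mem_filter.2 ⟨hy1.1, hy2, hk⟩)
    have h3 : ((Md.filter (fun y => f y ∈ B' y)).card : ℝ) ≤
        ((Md.filter (fun y => (f y : ℕ) ∈ B y ∧
          ∀ w ∈ Kl y, (f w : ℕ) = f y → N ≤ (f y : ℕ))).card : ℝ) + M'.card := by
      exact_mod_cast (Finset.card_le_card h2).trans (Finset.card_union_le _ _)
    have h4 : om / (4 * q) * (Md.card : ℝ) < M'.card := by
      have h5 : om / q / 2 * (Md.card : ℝ) = 2 * (om / (4 * q) * (Md.card : ℝ)) := by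
        field_simp; ring
      linarith
    have h5 : ∀ y, ∃ w, y ∈ M' → w ∈ Kl y ∧ (f w : ℕ) = f y := by
      intro y
      by_cases hy : y ∈ M'
      · obtain ⟨w, hw, hw2, _⟩ := (Finset.mem_filter.1 hy).2
        exact ⟨w, fun _ => ⟨hw, hw2⟩⟩
      · exact ⟨y, fun h => absurd h hy⟩
    choose g hg using h5
    obtain ⟨A1, hA1, hA2, hA3⟩ := indep g M'.card M' rfl (by
      intro y hy h
      have h6 := (hg y hy).1
      rw [h] at h6
      exact (hKl y (Finset.mem_filter.1 hy).1).2 h6)
    have h6 : a ≤ A1.card := by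
      rw [ha]
      apply Nat.ceil_le.2
      have h7 : (M'.card : ℝ) ≤ 3 * A1.card := by exact_mod_cast hA2
      have h8 : om / (16 * q) * (Md.card : ℝ) = (1 / 4) * (om / (4 * q) * (Md.card : ℝ)) := by
        field_simp; ring
      have h9 : 0 ≤ om / (4 * q) * (Md.card : ℝ) := by positivity
      rw [h8]
      linarith
    obtain ⟨A, hA, hAc⟩ := Finset.exists_subset_card_eq h6
    have hAM' : A ⊆ M' := hA.trans hA1
    let g' : V → V := fun y => if y ∈ A then g y else y
    have hg' : g' ∈ Fintype.piFinset (S A) := by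
      rw [Fintype.mem_piFinset]
      intro y
      by_cases hy : y ∈ A
      · simp only [S, g', hy, if_true]
        refine Finset.mem_sdiff.2 ⟨(hg y (hAM' hy)).1, fun h => ?_⟩
        exact hA3 y (hA hy) (hA h)
      · simp [S, g', hy]
    have hAm : A ∈ powersetCard a Md :=
      Finset.mem_powersetCard.2 ⟨hAM'.trans (Finset.filter_subset _ _), hAc⟩
    refine hf (some ⟨⟨A, hAm⟩, ⟨g', hg'⟩⟩) ?_
    intro y hy
    have hy' : y ∈ A := hy
    have h10 : g' y = g y := by simp [g', hy']
    obtain ⟨w, _, _, h11⟩ := (Finset.mem_filter.1 (hAM' hy')).2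
    refine ⟨?_, h11⟩
    change f (g' y) = f y
    rw [h10]
    exact Fin.ext (hg y (hAM' hy')).2

end dem

end RND

open RND in
theorem stmt_RND (hL : Stmt_LLLI.{u}) (hH : Stmt_RNH.{u}) (hK : Stmt_RNK.{u}) :
    Stmt_RND.{u} := by
  intro om m hom hom1 hm
  set q : ℕ := ⌈10000 / om⌉₊ with hqdef
  have hq : 10000 ≤ om * q := by
    have h1 : 10000 / om ≤ q := Nat.le_ceil _
    rw [div_le_iff₀ hom] at h1
    linarith
  have hqr : (0 : ℝ) < q := by
    by_contra hcon
    push Not at hcon
    nlinarith
  have hq1 : (10000 : ℝ) ≤ q := by nlinarith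
  have hq2 : 2 ≤ q := by
    have : (2 : ℝ) ≤ q := by linarith
    exact_mod_cast this
  set c : ℝ := om * m / (30 * q) with hc
  have hc0 : 0 < c := by positivity
  set T : ℝ := om / (100 * q) with hTdef
  have hT0 : 0 < T := by positivity
  have hT1 : T ≤ 1 / 4 := by
    rw [hTdef, div_le_iff₀ (by positivity)]
    nlinarith
  -- growth
  have hgrow : ∀ᶠ x : ℝ in Filter.atTop, ‖x ^ 4‖ ≤ (T / 4) * ‖Real.exp (c * x)‖ :=
    (isLittleO_pow_exp_pos_mul_atTop 4 hc0).def (by positivity)
  obtain ⟨X0, hX0⟩ := Filter.eventually_atTop.1 hgrow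
  refine ⟨q, om / (4 * q), max (2 * q) ⌈X0⌉₊, hq2, by positivity, ?_⟩
  intro V _ G Δ N t Dm _ Md B Kl hΔ hΔN hN2 hnb hMd hMd1 hB hKl hcount
  have hΔq : 2 * q ≤ Δ := (le_max_left _ _).trans hΔ
  have hΔX : X0 ≤ Δ := by
    have h1 : ⌈X0⌉₊ ≤ Δ := (le_max_right _ _).trans hΔ
    exact (Nat.le_ceil X0).trans (by exact_mod_cast h1)
  have hΔpos : 0 < Δ := by omega
  have hΔr : (0 : ℝ) < Δ := by exact_mod_cast hΔpos
  have hNpos : 0 < N := by omega
  have hNr : (0 : ℝ) < N := by exact_mod_cast hNpos
  have hM : 0 < q * N := Nat.mul_pos (by omega) hNpos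
  let good : V × V × V → Prop := fun p => p.2.1 ≠ p.2.2 ∧ p.2.1 ∈ nb G p.1 ∧ p.2.2 ∈ nb G p.1
  let Sc : (V × V × V) ⊕ Dm → Finset V := Sum.elim
    (fun p => if good p then {p.2.1, p.2.2} else ∅) (fun d => Md d ∪ (Md d).biUnion (Kl d))
  let W1 : ℝ := 1 / ((q * N : ℕ) : ℝ) ^ 2 * Real.exp (4 * T)
  let W2 : ℝ := 2 * Real.exp (-c * Δ)
  let W : (V × V × V) ⊕ Dm → ℝ := Sum.elim (fun p => if good p then W1 else 0) (fun _ => W2)
  let P : (V × V × V) ⊕ Dm → (V → Fin (q * N)) → Prop := Sum.elim
    (fun p f => good p → ¬ ((f p.2.1 : ℕ) = t p.1 p.2.1 ∧ (f p.2.2 : ℕ) = t p.1 p.2.2))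
    (fun d f => om / (4 * q) * ((Md d).card : ℝ) ≤ (((Md d).filter (fun y => (f y : ℕ) ∈ B d y ∧
      ∀ w ∈ Kl d y, (f w : ℕ) = f y → N ≤ (f y : ℕ))).card : ℝ))
  have hpack : ∀ r, PackI (M := q * N) T (Sc r) (W r) (P r) := by
    rintro (p | d)
    · by_cases hp : good p
      · obtain ⟨κ, hκ, Q, E, e1, e2, e3, e4, e5⟩ := pair_pack (M := q * N) hM T p.2.1 p.2.2
          hp.1 (t p.1 p.2.1) (t p.1 p.2.2)
        refine ⟨κ, hκ, Q, E, e1, e2, ?_, ?_, ?_⟩
        · simpa only [Sc, Sum.elim_inl, if_pos hp] using e3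
        · simpa only [W, Sum.elim_inl, if_pos hp] using e4
        · intro f hf _
          exact e5 f hf
      · refine ⟨PEmpty, inferInstance, fun k => k.elim, fun k => k.elim, fun k => k.elim,
          fun k => k.elim, fun k => k.elim, ?_, fun f _ h => absurd h hp⟩
        simp [W, hp]
    · exact dem_pack hH hK om m hom hom1 hm q hq Δ N hΔq hΔN (Md d) (B d) (Kl d) (hMd d)
        (hMd1 d) (hB d) (hKl d)
  have hsum : ∀ y, ∑ r ∈ univ.filter (fun r => y ∈ Sc r), W r ≤ T := by
    intro y
    rw [Finset.sum_filter, Fintype.sum_sum_type]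
    have hA : ∑ p : V × V × V, (if y ∈ Sc (Sum.inl p) then W (Sum.inl p) else 0) ≤ T / 2 := by
      have h1 : ∀ p : V × V × V, (if y ∈ Sc (Sum.inl p) then W (Sum.inl p) else 0) ≤
          (if p ∈ ((nb G y).biUnion fun v => (nb G v).image fun x => (v, y, x)) ∪
            ((nb G y).biUnion fun v => (nb G v).image fun x => (v, x, y)) then W1 else 0) := by
        intro p
        have hW1 : 0 ≤ W1 := by positivity
        by_cases hy : y ∈ Sc (Sum.inl p)
        · rw [if_pos hy]
          by_cases hp : good p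
          · obtain ⟨v, x, x'⟩ := p
            simp only [Sc, Sum.elim_inl, if_pos hp, Finset.mem_insert, Finset.mem_singleton] at hy
            obtain ⟨-, hp1, hp2⟩ := hp
            simp only [nb, mem_filter, mem_univ, true_and] at hp1 hp2
            rw [if_pos]
            · simp only [W, Sum.elim_inl]
              split_ifs
              · exact le_rfl
              · exact hW1
            · rw [Finset.mem_union]
              rcases hy with rfl | rfl
              · left
                refine Finset.mem_biUnion.2 ⟨v, ?_, Finset.mem_image.2 ⟨x', ?_, rfl⟩⟩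
                · simp [nb, hp1.symm]
                · simp [nb, hp2]
              · right
                refine Finset.mem_biUnion.2 ⟨v, ?_, Finset.mem_image.2 ⟨x, ?_, rfl⟩⟩
                · simp [nb, hp2.symm]
                · simp [nb, hp1]
          · simp [Sc, hp] at hy
        · rw [if_neg hy]
          split_ifs
          · exact hW1
          · exact le_rfl
      refine (Finset.sum_le_sum fun p _ => h1 p).trans ?_
      rw [← Finset.sum_filter, Finset.sum_const, nsmul_eq_mul]
      have h2 : ∀ F : V → V → V × V × V, ((nb G y).biUnion fun v => (nb G v).image (F v)).card ≤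
          Δ * Δ := by
        intro F
        refine Finset.card_biUnion_le.trans ?_
        calc ∑ v ∈ nb G y, ((nb G v).image (F v)).card ≤ ∑ v ∈ nb G y, Δ :=
              Finset.sum_le_sum fun v _ => Finset.card_image_le.trans (hnb v)
          _ = (nb G y).card * Δ := by rw [Finset.sum_const, smul_eq_mul]
          _ ≤ Δ * Δ := Nat.mul_le_mul_right _ (hnb y)
      have h3 : (univ.filter (fun p : V × V × V =>
          p ∈ ((nb G y).biUnion fun v => (nb G v).image fun x => (v, y, x)) ∪
            ((nb G y).biUnion fun v => (nb G v).image fun x => (v, x, y)))).card ≤ 2 * Δ ^ 2 := by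
        rw [Finset.filter_mem_eq_inter, Finset.univ_inter]
        refine (Finset.card_union_le _ _).trans ?_
        have := h2 (fun v x => (v, y, x))
        have := h2 (fun v x => (v, x, y))
        nlinarith
      have h3r : ((univ.filter (fun p : V × V × V =>
          p ∈ ((nb G y).biUnion fun v => (nb G v).image fun x => (v, y, x)) ∪
            ((nb G y).biUnion fun v => (nb G v).image fun x => (v, x, y)))).card : ℝ) ≤
          2 * (Δ : ℝ) ^ 2 := by exact_mod_cast h3
      refine (mul_le_mul_of_nonneg_right h3r (by positivity)).trans ?_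
      have h4 : Real.exp (4 * T) ≤ 3 := by
        have h5 : Real.exp (4 * T) ≤ Real.exp 1 := Real.exp_le_exp.2 (by linarith)
        have := Real.exp_one_lt_d9
        linarith
      have h5 : (Δ : ℝ) ^ 2 ≤ (N : ℝ) ^ 2 := by
        have : (Δ : ℝ) ≤ N := by exact_mod_cast hΔN
        exact pow_le_pow_left₀ hΔr.le this 2
      have h6 : T / 2 = om / (200 * q) := by rw [hTdef]; field_simp; ring
      rw [h6]
      simp only [W1]
      push_cast
      rw [show 2 * (Δ : ℝ) ^ 2 * (1 / ((q : ℝ) * N) ^ 2 * Real.exp (4 * T)) =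
        (2 * Real.exp (4 * T) / (q : ℝ) ^ 2) * ((Δ : ℝ) ^ 2 / (N : ℝ) ^ 2) by field_simp]
      have h7 : (Δ : ℝ) ^ 2 / (N : ℝ) ^ 2 ≤ 1 := by
        rw [div_le_one (by positivity)]; exact h5
      have h8 : 2 * Real.exp (4 * T) / (q : ℝ) ^ 2 ≤ om / (200 * q) := by
        rw [div_le_div_iff₀ (by positivity) (by positivity)]
        nlinarith
      calc (2 * Real.exp (4 * T) / (q : ℝ) ^ 2) * ((Δ : ℝ) ^ 2 / (N : ℝ) ^ 2)
          ≤ (2 * Real.exp (4 * T) / (q : ℝ) ^ 2) * 1 :=
            mul_le_mul_of_nonneg_left h7 (by positivity)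
        _ ≤ om / (200 * q) := by rw [mul_one]; exact h8
    have hB' : ∑ d : Dm, (if y ∈ Sc (Sum.inr d) then W (Sum.inr d) else 0) ≤ T / 2 := by
      rw [← Finset.sum_filter]
      simp only [W, Sum.elim_inr, Finset.sum_const, nsmul_eq_mul]
      have h1 : (univ.filter (fun d : Dm => y ∈ Sc (Sum.inr d))).card ≤ Δ ^ 4 := by
        refine le_trans (Finset.card_le_card ?_) (hcount y)
        intro d hd
        have hd' := (Finset.mem_filter.1 hd).2
        simp only [Sc, Sum.elim_inr, Finset.mem_union, Finset.mem_biUnion] at hd'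
        exact Finset.mem_filter.2 ⟨mem_univ _, hd'⟩
      have h2 : ((univ.filter (fun d : Dm => y ∈ Sc (Sum.inr d))).card : ℝ) ≤ (Δ : ℝ) ^ 4 := by
        exact_mod_cast h1
      have h3 := hX0 (Δ : ℝ) hΔX
      rw [Real.norm_of_nonneg (by positivity), Real.norm_of_nonneg (Real.exp_pos _).le] at h3
      calc ((univ.filter (fun d : Dm => y ∈ Sc (Sum.inr d))).card : ℝ) * W2
          ≤ (Δ : ℝ) ^ 4 * W2 := mul_le_mul_of_nonneg_right h2 (by positivity)
        _ ≤ (T / 4 * Real.exp (c * Δ)) * W2 := mul_le_mul_of_nonneg_right h3 (by positivity)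
        _ = T / 2 * (Real.exp (c * Δ) * Real.exp (-c * Δ)) := by simp only [W2]; ring
        _ = T / 2 := by
            rw [← Real.exp_add, show c * (Δ : ℝ) + -c * Δ = 0 by ring, Real.exp_zero, mul_one]
    have := add_le_add hA hB'
    linarith
  obtain ⟨f, hf⟩ := hL V (q * N) ((V × V × V) ⊕ Dm) T Sc W P hM hT0.le hT1 hpack hsum
  refine ⟨fun v => (f v : ℕ), fun v => (f v).2, ?_, ?_⟩
  · intro v
    by_contra hcon
    push Not at hcon
    obtain ⟨x, hx, x', hx', hne⟩ := Finset.one_lt_card.1 hcon
    have h1 := Finset.mem_filter.1 hx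
    have h2 := Finset.mem_filter.1 hx'
    exact hf (Sum.inl (v, x, x')) ⟨hne, h1.1, h2.1⟩ ⟨h1.2, h2.2⟩
  · intro d
    exact hf (Sum.inr d)

end Pool.Agent.Work.MP_db9399_all
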