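import Pool.Agent.Work.MP_db9399_all.Interface

/-!
# Block RNH: few hits are unlikely
-/

set_option autoImplicit false

namespace Pool.Agent.Work.MP_db9399_all

open Finset Classical

universe u

theorem stmt_RNH : Stmt_RNH.{u} := by
  intro J _ M A B s hM hs0 hs1 hB
  have hMr : (0 : ℝ) < M := by exact_mod_cast hM
  have : Nonempty (Fin M) := ⟨⟨0, hM⟩⟩
  have hcard : (0 : ℝ) < Fintype.card (J → Fin M) := by exact_mod_cast Fintype.card_pos
  let g : J → Fin M → ℝ := fun y a => if y ∈ A ∧ a ∈ B y then 1 / 2 else 1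
  have hsum : ∑ f : J → Fin M, ∏ y, g y (f y) =
      ∏ y, ∑ a : Fin M, g y a := by
    rw [Finset.prod_univ_sum, Fintype.piFinset_univ]
  have hg : ∀ y, ∑ a : Fin M, g y a ≤ (M : ℝ) * (if y ∈ A then Real.exp (-s / 2) else 1) := by
    intro y
    by_cases hy : y ∈ A
    · rw [if_pos hy]
      have h1 : ∑ a : Fin M, g y a = M - ((B y).card : ℝ) / 2 := by
        have h2 : ∀ a : Fin M, g y a = 1 - (if a ∈ B y then (1 / 2 : ℝ) else 0) := by
          intro a
          by_cases ha : a ∈ B y
          · simp only [g, hy, ha, and_self, if_true]; norm_num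
          · simp [g, ha]
        rw [Finset.sum_congr rfl fun a _ => h2 a, Finset.sum_sub_distrib, Finset.sum_ite_mem]
        simp
        ring
      rw [h1]
      have h3 : 1 - s / 2 ≤ Real.exp (-s / 2) := by
        have := Real.add_one_le_exp (-s / 2)
        linarith
      have h4 := hB y hy
      have h5 := mul_le_mul_of_nonneg_left h3 hMr.le
      nlinarith
    · rw [if_neg hy]
      have h2 : ∀ a : Fin M, g y a = 1 := by
        intro a
        simp [g, hy]
      rw [Finset.sum_congr rfl fun a _ => h2 a]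
      simp
  have hg0 : ∀ y a, 0 ≤ g y a := by
    intro y a
    simp only [g]
    split_ifs <;> norm_num
  have hprod : ∏ y, ∑ a : Fin M, g y a ≤
      (Fintype.card (J → Fin M) : ℝ) * Real.exp (-s / 2) ^ A.card := by
    refine (Finset.prod_le_prod (fun y _ => Finset.sum_nonneg fun a _ => hg0 y a)
      fun y _ => hg y).trans (le_of_eq ?_)
    rw [Finset.prod_mul_distrib, Finset.prod_const, Finset.prod_ite_mem, Finset.prod_const]
    simp
  -- Markov
  have hX : ∀ f : J → Fin M, ∏ y, g y (f y) = (1 / 2 : ℝ) ^ (A.filter (fun y => f y ∈ B y)).card := by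
    intro f
    rw [Finset.prod_ite, Finset.prod_const_one, mul_one, Finset.prod_const]
    congr 2
    ext y
    simp
  have hmk : ∀ f : J → Fin M,
      (if ((A.filter (fun y => f y ∈ B y)).card : ℝ) < s / 2 * A.card then (1 : ℝ) else 0) ≤
        Real.exp (Real.log 2 * (s / 2 * A.card)) * ∏ y, g y (f y) := by
    intro f
    rw [hX]
    split_ifs with h
    · have h1 : (1 / 2 : ℝ) ^ (A.filter (fun y => f y ∈ B y)).card =
          Real.exp (-(Real.log 2 * (A.filter (fun y => f y ∈ B y)).card)) := by
        rw [one_div, inv_pow, Real.exp_neg, mul_comm, Real.exp_nat_mul, Real.exp_log (by norm_num)]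
      rw [h1, ← Real.exp_add]
      apply Real.one_le_exp
      have h2 : 0 < Real.log 2 := Real.log_pos (by norm_num)
      have := mul_le_mul_of_nonneg_left h.le h2.le
      linarith
    · positivity
  rw [pr, div_le_iff₀ hcard, ← Finset.sum_boole]
  refine le_trans (le_of_eq (Finset.sum_congr rfl (g := fun f : J → Fin M =>
    (if ((A.filter (fun y => f y ∈ B y)).card : ℝ) < s / 2 * A.card then (1 : ℝ) else 0))
    fun ω _ => by congr)) ?_
  calc ∑ f : J → Fin M,
      (if ((A.filter (fun y => f y ∈ B y)).card : ℝ) < s / 2 * A.card then (1 : ℝ) else 0)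
      ≤ ∑ f : J → Fin M, Real.exp (Real.log 2 * (s / 2 * A.card)) * ∏ y, g y (f y) :=
        Finset.sum_le_sum fun f _ => hmk f
    _ = Real.exp (Real.log 2 * (s / 2 * A.card)) * ∏ y, ∑ a : Fin M, g y a := by
        rw [← Finset.mul_sum, hsum]
    _ ≤ Real.exp (Real.log 2 * (s / 2 * A.card)) *
        ((Fintype.card (J → Fin M) : ℝ) * Real.exp (-s / 2) ^ A.card) :=
        mul_le_mul_of_nonneg_left hprod (Real.exp_pos _).le
    _ = Real.exp (Real.log 2 * (s / 2 * A.card) + A.card * (-s / 2)) *
        (Fintype.card (J → Fin M) : ℝ) := by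
        rw [Real.exp_add, ← Real.exp_nat_mul]; ring
    _ ≤ Real.exp (-(3 / 20) * s * A.card) * (Fintype.card (J → Fin M) : ℝ) := by
        apply mul_le_mul_of_nonneg_right _ hcard.le
        apply Real.exp_le_exp.2
        have h1 := Real.log_two_lt_d9
        have h2 : 0 ≤ s * A.card := by positivity
        nlinarith

end Pool.Agent.Work.MP_db9399_all
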