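import Pool.Agent.Work.MP_db9399_all.Interface

/-!
# Block RNK: total probability of the killing patterns
-/

set_option autoImplicit false

namespace Pool.Agent.Work.MP_db9399_all

open Finset Classical

universe u

namespace RNK

variable {J : Type u} [Fintype J]

/-- probability of one pattern -/
theorem one_pat (N q : ℕ) (A : Finset J) (g : J → J) (hN : 0 < N) (hq : 0 < q)
    (hg : ∀ y ∈ A, g y ∉ A) :
    pr (fun f : J → Fin (q * N) => ∀ y ∈ A, f (g y) = f y ∧ (f y : ℕ) < N) ≤
      (1 / (q : ℝ)) ^ (A.image g).card * (1 / ((q : ℝ) * N)) ^ A.card := by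
  have hM : 0 < q * N := Nat.mul_pos hq hN
  let z : Fin (q * N) := ⟨0, hM⟩
  have : Nonempty (Fin (q * N)) := ⟨z⟩
  have hcard : (0 : ℝ) < Fintype.card (J → Fin (q * N)) := by exact_mod_cast Fintype.card_pos
  have hqr : (0 : ℝ) < q := by exact_mod_cast hq
  have hNr : (0 : ℝ) < N := by exact_mod_cast hN
  let S : J → Finset (Fin (q * N)) := fun y =>
    if y ∈ A then {z} else if y ∈ A.image g then univ.filter (fun a => (a : ℕ) < N) else univ
  have h1 : (univ.filter (fun f : J → Fin (q * N) => ∀ y ∈ A, f (g y) = f y ∧ (f y : ℕ) < N)).card
      ≤ (Fintype.piFinset S).card := by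
    apply Finset.card_le_card_of_injOn (fun f y => if y ∈ A then z else f y)
    · intro f hf
      have hf' : ∀ y ∈ A, f (g y) = f y ∧ (f y : ℕ) < N := by simpa using hf
      rw [Finset.mem_coe, Fintype.mem_piFinset]
      intro y
      by_cases hy : y ∈ A
      · simp [S, hy]
      · by_cases hy2 : y ∈ A.image g
        · simp only [S, hy, hy2, if_false, if_true, mem_filter, mem_univ, true_and]
          obtain ⟨x, hx, rfl⟩ := Finset.mem_image.1 hy2
          rw [(hf' x hx).1]
          exact (hf' x hx).2
        · simp only [S, hy, hy2, if_false, mem_univ]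
    · intro f hf f' hf' hff
      have hf1 : ∀ y ∈ A, f (g y) = f y ∧ (f y : ℕ) < N := by simpa using hf
      have hf2 : ∀ y ∈ A, f' (g y) = f' y ∧ (f' y : ℕ) < N := by simpa using hf'
      have hff : ∀ y, (if y ∈ A then z else f y) = (if y ∈ A then z else f' y) :=
        fun y => congrFun hff y
      funext y
      by_cases hy : y ∈ A
      · rw [← (hf1 y hy).1, ← (hf2 y hy).1]
        have := hff (g y)
        rwa [if_neg (hg y hy), if_neg (hg y hy)] at this
      · have := hff y
        rwa [if_neg hy, if_neg hy] at this
  have h2 : ∀ y, ((S y).card : ℝ) ≤ (q * N : ℝ) * ((if y ∈ A then 1 / ((q : ℝ) * N) else 1) *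
      (if y ∈ A.image g then 1 / (q : ℝ) else 1)) := by
    intro y
    by_cases hy : y ∈ A
    · have hy2 : y ∉ A.image g := by
        intro h
        obtain ⟨x, hx, rfl⟩ := Finset.mem_image.1 h
        exact hg x hx hy
      simp only [S, hy, hy2, if_true, if_false, card_singleton, Nat.cast_one, mul_one]
      rw [mul_one_div_cancel (by positivity)]
    · by_cases hy2 : y ∈ A.image g
      · simp only [S, hy, hy2, if_true, if_false, one_mul]
        have h3 : (univ.filter (fun a : Fin (q * N) => (a : ℕ) < N)).card ≤ N := by
          have := Finset.card_le_card_of_injOn (s := univ.filter (fun a : Fin (q * N) => (a : ℕ) < N))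
            (t := range N) (fun a => (a : ℕ)) (by
              intro a ha
              simpa using ha) (by
              intro a _ b _ hab
              exact Fin.ext hab)
          simpa using this
        have h4 : (q * N : ℝ) * (1 / (q : ℝ)) = N := by field_simp
        rw [h4]
        exact_mod_cast h3
      · simp only [S, hy, hy2, if_false, card_univ, Fintype.card_fin, mul_one]
        push_cast
        exact le_rfl
  rw [pr, div_le_iff₀ hcard]
  refine le_trans (b := ((Fintype.piFinset S).card : ℝ)) (Nat.cast_le.2 (by convert h1)) ?_
  calc ((Fintype.piFinset S).card : ℝ) = ∏ y, ((S y).card : ℝ) := by rw [Fintype.card_piFinset]; push_cast; rfl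
    _ ≤ ∏ y, ((q * N : ℝ) * ((if y ∈ A then 1 / ((q : ℝ) * N) else 1) *
          (if y ∈ A.image g then 1 / (q : ℝ) else 1))) :=
        Finset.prod_le_prod (fun y _ => by positivity) fun y _ => h2 y
    _ = _ := by
        rw [Finset.prod_mul_distrib (f := fun _ : J => (q * N : ℝ)),
          Finset.prod_mul_distrib (f := fun y : J => if y ∈ A then 1 / ((q : ℝ) * N) else 1),
          Finset.prod_const,
          Finset.prod_ite_mem, Finset.prod_ite_mem, Finset.prod_const, Finset.prod_const,
          Finset.univ_inter, Finset.univ_inter]
        simp only [Fintype.card_fun, Fintype.card_fin, card_univ]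
        push_cast
        ring

theorem sum_pat (A : Finset J) (S : J → Finset J) (q D : ℝ) (hq : 0 < q)
    (hS : ∀ y ∈ A, ((S y).card : ℝ) ≤ 3 * D) (A' : Finset J) (hA' : A' ⊆ A) :
    ∑ g ∈ Fintype.piFinset (fun y : J => if y ∈ A' then S y else {y}),
      (1 / q) ^ (A'.image g).card ≤ ((A.card : ℝ) + 3 * D / q) ^ A'.card := by
  induction A' using Finset.induction_on with
  | empty =>
    simp only [Finset.notMem_empty, if_false, Finset.image_empty, card_empty, pow_zero]
    simp
  | insert a A' ha ih =>
    have ih := ih ((Finset.subset_insert a A').trans hA')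
    have haA : a ∈ A := hA' (Finset.mem_insert_self _ _)
    have hA'A : A' ⊆ A := (Finset.subset_insert a A').trans hA'
    have h1 : ∑ g ∈ Fintype.piFinset (fun y : J => if y ∈ insert a A' then S y else {y}),
        (1 / q) ^ ((insert a A').image g).card =
        ∑ x ∈ Fintype.piFinset (fun y : J => if y ∈ A' then S y else {y}) ×ˢ S a,
          (1 / q) ^ ((insert a A').image (Function.update x.1 a x.2)).card := by
      refine Finset.sum_nbij' (fun g => (Function.update g a a, g a))
        (fun x => Function.update x.1 a x.2) ?_ ?_ ?_ ?_ ?_
      · intro g hg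
        rw [Fintype.mem_piFinset] at hg
        rw [Finset.mem_product, Fintype.mem_piFinset]
        refine ⟨fun y => ?_, ?_⟩
        · by_cases hy : y = a
          · subst hy
            simp [ha]
          · have := hg y
            simp only [Finset.mem_insert, hy, false_or] at this
            simpa [hy] using this
        · simpa using hg a
      · intro x hx
        rw [Finset.mem_product, Fintype.mem_piFinset] at hx
        rw [Fintype.mem_piFinset]
        intro y
        by_cases hy : y = a
        · subst hy
          simpa using hx.2
        · have := hx.1 y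
          simp only [Finset.mem_insert, hy, false_or]
          simpa [hy] using this
      · intro g _
        simp
      · intro x hx
        rw [Finset.mem_product, Fintype.mem_piFinset] at hx
        have := hx.1 a
        simp only [ha, if_false, Finset.mem_singleton] at this
        have h2 : Function.update (Function.update x.1 a x.2) a a = x.1 := by
          rw [Function.update_idem]
          exact Function.update_eq_self_iff.2 this.symm
        ext1
        · exact h2
        · simp
      · intro g _
        simp
    rw [h1, Finset.sum_product]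
    have h2 : ∀ g : J → J, ∑ b ∈ S a, (1 / q) ^ ((insert a A').image (Function.update g a b)).card ≤
        (1 / q) ^ (A'.image g).card * ((A.card : ℝ) + 3 * D / q) := by
      intro g
      have h3 : ∀ b, ((insert a A').image (Function.update g a b)) = insert b (A'.image g) := by
        intro b
        rw [Finset.image_insert, Function.update_self]
        congr 1
        apply Finset.image_congr
        intro y hy
        have : y ≠ a := fun h => ha (h ▸ hy)
        exact Function.update_of_ne this _ _
      have h4 : ∀ b ∈ S a, (1 / q) ^ ((insert a A').image (Function.update g a b)).card ≤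
          (1 / q) ^ (A'.image g).card * ((if b ∈ A'.image g then 1 else 0) + 1 / q) := by
        intro b _
        rw [h3 b]
        by_cases hb : b ∈ A'.image g
        · rw [Finset.insert_eq_of_mem hb, if_pos hb]
          have h5 : (0 : ℝ) ≤ 1 / q := by positivity
          have h6 : (0 : ℝ) ≤ (1 / q) ^ (A'.image g).card := by positivity
          nlinarith
        · rw [Finset.card_insert_of_notMem hb, if_neg hb, pow_succ, zero_add]
      refine (Finset.sum_le_sum h4).trans ?_
      rw [← Finset.mul_sum, Finset.sum_add_distrib, Finset.sum_const, nsmul_eq_mul]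
      apply mul_le_mul_of_nonneg_left _ (by positivity)
      apply add_le_add
      · rw [Finset.sum_boole]
        have h5 : ((S a).filter (fun b => b ∈ A'.image g)).card ≤ A.card := by
          calc _ ≤ (A'.image g).card := Finset.card_le_card (by
                intro x hx
                exact (Finset.mem_filter.1 hx).2)
            _ ≤ A'.card := Finset.card_image_le
            _ ≤ A.card := Finset.card_le_card hA'A
        exact_mod_cast h5
      · rw [mul_one_div]
        exact div_le_div_of_nonneg_right (hS a haA) hq.le
    calc _ ≤ ∑ g ∈ Fintype.piFinset (fun y : J => if y ∈ A' then S y else {y}),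
          (1 / q) ^ (A'.image g).card * ((A.card : ℝ) + 3 * D / q) :=
          Finset.sum_le_sum fun g _ => h2 g
      _ ≤ ((A.card : ℝ) + 3 * D / q) ^ A'.card * ((A.card : ℝ) + 3 * D / q) := by
          rw [← Finset.sum_mul]
          apply mul_le_mul_of_nonneg_right ih
          have h7 : (0 : ℝ) ≤ 3 * D := le_trans (by positivity) (hS a haA)
          positivity
      _ = _ := by rw [Finset.card_insert_of_notMem ha, pow_succ]

end RNK

open RNK in
theorem stmt_RNK : Stmt_RNK.{u} := by
  intro J _ N q A Kl D hN hq hKl hA
  have hq0 : 0 < q := by omega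
  have hqr : (0 : ℝ) < q := by exact_mod_cast hq0
  have hNr : (0 : ℝ) < N := by exact_mod_cast hN
  calc ∑ g ∈ Fintype.piFinset (fun y : J => if y ∈ A then Kl y \ A else {y}),
      pr (fun f : J → Fin (q * N) => ∀ y ∈ A, f (g y) = f y ∧ (f y : ℕ) < N)
      ≤ ∑ g ∈ Fintype.piFinset (fun y : J => if y ∈ A then Kl y \ A else {y}),
        (1 / (q : ℝ)) ^ (A.image g).card * (1 / ((q : ℝ) * N)) ^ A.card := by
        refine Finset.sum_le_sum fun g hg => one_pat N q A g hN hq0 ?_
        intro y hy
        have := (Fintype.mem_piFinset.1 hg) y
        rw [if_pos hy] at this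
        exact (Finset.mem_sdiff.1 this).2
    _ ≤ ((A.card : ℝ) + 3 * D / q) ^ A.card * (1 / ((q : ℝ) * N)) ^ A.card := by
        rw [← Finset.sum_mul]
        apply mul_le_mul_of_nonneg_right _ (by positivity)
        apply sum_pat A (fun y => Kl y \ A) q D hqr _ A le_rfl
        intro y hy
        have h1 := hKl y hy
        have h2 : (Kl y \ A).card ≤ (Kl y).card := Finset.card_le_card Finset.sdiff_subset
        have h3 : (Kl y \ A).card ≤ 3 * D := h2.trans h1
        exact_mod_cast h3
    _ ≤ (4 * (D : ℝ) / q) ^ A.card * (1 / ((q : ℝ) * N)) ^ A.card := by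
        apply mul_le_mul_of_nonneg_right _ (by positivity)
        apply pow_le_pow_left₀ (by positivity)
        have h4 : (A.card : ℝ) ≤ D / q := by
          rw [le_div_iff₀ hqr, mul_comm]
          exact hA
        have h5 : (4 * (D : ℝ) / q) = D / q + 3 * D / q := by ring
        rw [h5]
        linarith

end Pool.Agent.Work.MP_db9399_all
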