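import Pool.Agent.Work.MP_db9399_all.Interface

/-!
# Block PE2: the colours of `Y` rarely cover the colours of `Z`
-/

set_option autoImplicit false

namespace Pool.Agent.Work.MP_db9399_all

open Finset Classical

universe u

set_option linter.unusedSectionVars false

namespace PE2

theorem swap_subset {n : ℕ} (T Y : Finset (Fin n)) (b c : Fin n) (hb : b ∉ T) (hc : c ∉ T)
    (π : Equiv.Perm (Fin n)) (h : insert b T ⊆ Y.image π) :
    insert c T ⊆ Y.image (Equiv.swap b c * π : Equiv.Perm (Fin n)) := by
  intro x hx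
  rcases Finset.mem_insert.1 hx with rfl | hx
  · obtain ⟨y, hy, hyb⟩ := Finset.mem_image.1 (h (Finset.mem_insert_self b T))
    refine Finset.mem_image.2 ⟨y, hy, ?_⟩
    rw [Equiv.Perm.mul_apply, hyb, Equiv.swap_apply_left]
  · obtain ⟨y, hy, hyb⟩ := Finset.mem_image.1 (h (Finset.mem_insert_of_mem hx))
    refine Finset.mem_image.2 ⟨y, hy, ?_⟩
    have h1 : x ≠ b := fun h => hb (h ▸ hx)
    have h2 : x ≠ c := fun h => hc (h ▸ hx)
    rw [Equiv.Perm.mul_apply, hyb, Equiv.swap_apply_of_ne_of_ne h1 h2]

theorem swap_card_le {n : ℕ} (T Y : Finset (Fin n)) (b c : Fin n) (hb : b ∉ T) (hc : c ∉ T) :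
    (univ.filter (fun π : Equiv.Perm (Fin n) => insert b T ⊆ Y.image π)).card ≤
      (univ.filter (fun π : Equiv.Perm (Fin n) => insert c T ⊆ Y.image π)).card := by
  apply Finset.card_le_card_of_injOn (fun π => Equiv.swap b c * π)
  · intro π hπ
    simp only [coe_filter, mem_univ, true_and, Set.mem_ofPred_eq] at hπ ⊢
    exact swap_subset T Y b c hb hc π hπ
  · intro a _ a' _ haa
    exact mul_left_cancel haa

theorem perm_count {n : ℕ} (T Y : Finset (Fin n)) :
    (univ.filter (fun π : Equiv.Perm (Fin n) => T ⊆ Y.image π)).card * n ^ T.card ≤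
      Y.card ^ T.card * (Fintype.card (Equiv.Perm (Fin n))) := by
  induction T using Finset.induction_on with
  | empty => simp
  | insert b T hb ih =>
    have hsum : ∑ c ∈ univ.filter (fun c => c ∉ T),
        (univ.filter (fun π : Equiv.Perm (Fin n) => insert c T ⊆ Y.image π)).card =
        ∑ π ∈ univ.filter (fun π : Equiv.Perm (Fin n) => T ⊆ Y.image π), (Y.card - T.card) := by
      have h1 : ∀ c ∈ univ.filter (fun c => c ∉ T),
          (univ.filter (fun π : Equiv.Perm (Fin n) => insert c T ⊆ Y.image π)).card =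
          ((univ.filter (fun π : Equiv.Perm (Fin n) => T ⊆ Y.image π)).filter
            (fun π : Equiv.Perm (Fin n) => c ∈ Y.image π)).card := by
        intro c _
        apply congrArg Finset.card
        ext π
        simp only [mem_filter, mem_univ, true_and, Finset.insert_subset_iff]
        tauto
      rw [Finset.sum_congr rfl h1]
      have h2 := Finset.sum_card_bipartiteAbove_eq_sum_card_bipartiteBelow
        (s := univ.filter (fun c => c ∉ T))
        (t := (univ : Finset (Equiv.Perm (Fin n))).filter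
          (fun π : Equiv.Perm (Fin n) => T ⊆ Y.image π))
        (r := fun (c : Fin n) (π : Equiv.Perm (Fin n)) => c ∈ Y.image π)
      simp only [bipartiteAbove, bipartiteBelow] at h2
      rw [h2]
      refine Finset.sum_congr rfl fun π hπ => ?_
      have hπ' : T ⊆ Y.image π := (Finset.mem_filter.1 hπ).2
      have h3 : (univ.filter (fun c => c ∉ T)).filter (fun c => c ∈ Y.image π) =
          Y.image π \ T := by
        ext x
        simp only [mem_filter, mem_univ, true_and, mem_sdiff]
        tauto
      rw [h3, Finset.card_sdiff_of_subset hπ', Finset.card_image_of_injective _ π.injective]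
    have hconst : ∀ c ∈ univ.filter (fun c => c ∉ T),
        (univ.filter (fun π : Equiv.Perm (Fin n) => insert c T ⊆ Y.image π)).card =
        (univ.filter (fun π : Equiv.Perm (Fin n) => insert b T ⊆ Y.image π)).card := by
      intro c hc
      have hc' : c ∉ T := (Finset.mem_filter.1 hc).2
      exact le_antisymm (swap_card_le T Y c b hc' hb) (swap_card_le T Y b c hb hc')
    rw [Finset.sum_congr rfl hconst, Finset.sum_const, Finset.sum_const, smul_eq_mul,
      smul_eq_mul] at hsum
    have hcard : (univ.filter (fun c => c ∉ T)).card = n - T.card := by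
      have h4 : univ.filter (fun c => c ∉ T) = Tᶜ := by ext; simp
      rw [h4, Finset.card_compl, Fintype.card_fin]
    rw [hcard] at hsum
    rw [Finset.card_insert_of_notMem hb]
    have hT : T.card < n := by
      have := Finset.card_le_univ (insert b T)
      rw [Finset.card_insert_of_notMem hb, Fintype.card_fin] at this
      omega
    have hY : Y.card ≤ n := by
      have := Finset.card_le_univ Y
      rwa [Fintype.card_fin] at this
    have hkey : (univ.filter (fun π : Equiv.Perm (Fin n) => insert b T ⊆ Y.image π)).card * n ≤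
        Y.card * (univ.filter (fun π : Equiv.Perm (Fin n) => T ⊆ Y.image π)).card := by
      generalize (univ.filter (fun π : Equiv.Perm (Fin n) => insert b T ⊆ Y.image π)).card = p
        at hsum
      generalize (univ.filter (fun π : Equiv.Perm (Fin n) => T ⊆ Y.image π)).card = q at hsum
      have h5 : (Y.card - T.card) * n ≤ Y.card * (n - T.card) := by
        rw [Nat.sub_mul, Nat.mul_sub]
        apply Nat.sub_le_sub_left
        rw [mul_comm]
        exact Nat.mul_le_mul_left _ hY
      have h6 : (n - T.card) * (p * n) ≤ (n - T.card) * (Y.card * q) := by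
        calc (n - T.card) * (p * n) = q * ((Y.card - T.card) * n) := by
              rw [← mul_assoc, hsum, mul_assoc]
          _ ≤ q * (Y.card * (n - T.card)) := Nat.mul_le_mul_left _ h5
          _ = (n - T.card) * (Y.card * q) := by ring
      exact Nat.le_of_mul_le_mul_left h6 (by omega)
    calc (univ.filter (fun π : Equiv.Perm (Fin n) => insert b T ⊆ Y.image π)).card *
          n ^ (T.card + 1)
        = ((univ.filter (fun π : Equiv.Perm (Fin n) => insert b T ⊆ Y.image π)).card * n) *
          n ^ T.card := by ring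
      _ ≤ (Y.card * (univ.filter (fun π : Equiv.Perm (Fin n) => T ⊆ Y.image π)).card) *
          n ^ T.card := Nat.mul_le_mul_right _ hkey
      _ = Y.card * ((univ.filter (fun π : Equiv.Perm (Fin n) => T ⊆ Y.image π)).card *
          n ^ T.card) := by ring
      _ ≤ Y.card * (Y.card ^ T.card * Fintype.card (Equiv.Perm (Fin n))) :=
          Nat.mul_le_mul_left _ ih
      _ = _ := by ring

theorem perm_count_real {n : ℕ} (e : Fin n → ℕ) (he : Function.Injective e) (Y : Finset (Fin n))
    (T : Finset ℕ) :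
    ((univ.filter (fun π : Equiv.Perm (Fin n) => T ⊆ Y.image (fun a => e (π a)))).card : ℝ) ≤
      ((Y.card : ℝ) / n) ^ T.card * (Fintype.card (Equiv.Perm (Fin n))) := by
  by_cases hT : T ⊆ (univ : Finset (Fin n)).image e
  · obtain ⟨T', -, rfl⟩ := Finset.subset_image_iff.1 hT
    rw [Finset.card_image_of_injective _ he]
    have h1 : (univ.filter (fun π : Equiv.Perm (Fin n) =>
        T'.image e ⊆ Y.image (fun a => e (π a)))) =
        univ.filter (fun π : Equiv.Perm (Fin n) => T' ⊆ Y.image π) := by
      ext π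
      simp only [mem_filter, mem_univ, true_and]
      rw [show Y.image (fun a => e (π a)) = (Y.image π).image e from by
        rw [Finset.image_image]; rfl, Finset.image_subset_image_iff he]
    rw [h1]
    rcases Nat.eq_zero_or_pos n with hn | hn
    · subst hn
      have : T' = ∅ := Finset.eq_empty_of_isEmpty T'
      subst this
      simp
    · have h2 := perm_count T' Y
      rw [div_pow, div_mul_eq_mul_div, le_div_iff₀ (by positivity)]
      exact_mod_cast h2
  · have h1 : (univ.filter (fun π : Equiv.Perm (Fin n) =>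
        T ⊆ Y.image (fun a => e (π a)))) = ∅ := by
      apply Finset.filter_eq_empty_iff.2
      intro π _ h
      apply hT
      refine h.trans ?_
      intro x hx
      obtain ⟨a, _, rfl⟩ := Finset.mem_image.1 hx
      exact Finset.mem_image.2 ⟨π a, mem_univ _, rfl⟩
    rw [h1]
    simp only [card_empty, Nat.cast_zero]
    positivity

theorem expand (R Q : Finset ℕ) (a b : ℝ) :
    a ^ (R \ Q).card * (a + b) ^ (R ∩ Q).card =
      ∑ T ∈ R.powerset, b ^ T.card * a ^ (R.card - T.card) * (if T ⊆ Q then 1 else 0) := by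
  have h1 : ∏ c ∈ R, ((if c ∈ Q then b else 0) + a) =
      a ^ (R \ Q).card * (a + b) ^ (R ∩ Q).card := by
    rw [← Finset.prod_sdiff (Finset.inter_subset_left (s₁ := R) (s₂ := Q)),
      Finset.sdiff_inter_self_left]
    congr 1
    · rw [Finset.prod_congr rfl (g := fun _ => a), Finset.prod_const]
      intro c hc
      simp [(Finset.mem_sdiff.1 hc).2]
    · rw [Finset.prod_congr rfl (g := fun _ => a + b), Finset.prod_const]
      intro c hc
      simp [(Finset.mem_inter.1 hc).2, add_comm]
  rw [← h1, Finset.prod_add]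
  refine Finset.sum_congr rfl fun T hT => ?_
  rw [Finset.prod_const, Finset.card_sdiff_of_subset (Finset.mem_powerset.1 hT)]
  by_cases hTQ : T ⊆ Q
  · rw [if_pos hTQ, mul_one, Finset.prod_congr rfl (g := fun _ => b), Finset.prod_const]
    intro c hc
    simp [hTQ hc]
  · rw [if_neg hTQ, mul_zero]
    obtain ⟨c, hc, hcQ⟩ := Finset.not_subset.1 hTQ
    rw [Finset.prod_eq_zero hc (by simp [hcQ]), zero_mul]

theorem perm_pgf {n : ℕ} (e : Fin n → ℕ) (he : Function.Injective e) (Y : Finset (Fin n))
    (R : Finset ℕ) (u : ℝ) (hu0 : 0 ≤ u) (hu1 : u ≤ 1) :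
    ∑ π : Equiv.Perm (Fin n), u ^ (R \ Y.image (fun a => e (π a))).card ≤
      (u + (1 - u) * ((Y.card : ℝ) / n)) ^ R.card * (Fintype.card (Equiv.Perm (Fin n))) := by
  have h1 : ∀ π : Equiv.Perm (Fin n), u ^ (R \ Y.image (fun a => e (π a))).card =
      ∑ T ∈ R.powerset, (1 - u) ^ T.card * u ^ (R.card - T.card) *
        (if T ⊆ Y.image (fun a => e (π a)) then 1 else 0) := by
    intro π
    rw [← expand]
    simp
  rw [Finset.sum_congr rfl fun π _ => h1 π, Finset.sum_comm]
  have h2 : ∀ T ∈ R.powerset, ∑ π : Equiv.Perm (Fin n), (1 - u) ^ T.card *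
      u ^ (R.card - T.card) * (if T ⊆ Y.image (fun a => e (π a)) then 1 else 0) ≤
      (((1 - u) * ((Y.card : ℝ) / n)) ^ T.card * u ^ (R.card - T.card)) *
        (Fintype.card (Equiv.Perm (Fin n))) := by
    intro T _
    rw [← Finset.mul_sum, Finset.sum_boole, mul_pow]
    have h3 := perm_count_real e he Y T
    calc (1 - u) ^ T.card * u ^ (R.card - T.card) *
          ((univ.filter (fun π : Equiv.Perm (Fin n) => T ⊆ Y.image (fun a => e (π a)))).card : ℝ)
        ≤ (1 - u) ^ T.card * u ^ (R.card - T.card) * (((Y.card : ℝ) / n) ^ T.card *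
          (Fintype.card (Equiv.Perm (Fin n)))) := by
          apply mul_le_mul_of_nonneg_left h3
          have : 0 ≤ 1 - u := by linarith
          positivity
      _ = _ := by ring
  refine (Finset.sum_le_sum h2).trans ?_
  rw [← Finset.sum_mul, Finset.sum_pow_mul_eq_add_pow, add_comm u]

variable {J : Type u} [Fintype J] {n : ℕ}

/-- averaging over one block -/
theorem avg (G : Cfg J n → ℝ) (j : J) :
    (Fintype.card (Equiv.Perm (Fin n)) : ℝ) * ∑ ω : Cfg J n, G ω =
      ∑ ω : Cfg J n, ∑ π : Equiv.Perm (Fin n), G (Function.update ω j π) := by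
  rw [← Finset.sum_product' (s := (univ : Finset (Cfg J n)))
    (t := (univ : Finset (Equiv.Perm (Fin n)))) (f := fun ω π => G (Function.update ω j π))]
  have h1 : ∑ x ∈ (univ : Finset (Cfg J n)) ×ˢ (univ : Finset (Equiv.Perm (Fin n))),
      G (Function.update x.1 j x.2) =
      ∑ x ∈ (univ : Finset (Cfg J n)) ×ˢ (univ : Finset (Equiv.Perm (Fin n))), G x.1 := by
    refine Finset.sum_nbij' (fun x => (Function.update x.1 j x.2, x.1 j))
      (fun x => (Function.update x.1 j x.2, x.1 j)) ?_ ?_ ?_ ?_ ?_
    · intro x _; simp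
    · intro x _; simp
    · intro x _; simp
    · intro x _; simp
    · intro x _; rfl
  rw [h1, Finset.sum_product, Finset.mul_sum]
  refine Finset.sum_congr rfl fun ω _ => ?_
  simp

/-- positions of `Y` in the block `j` -/
noncomputable def posn (Y : Finset (J × Fin n)) (j : J) : Finset (Fin n) :=
  (Y.filter (fun p => p.1 = j)).image Prod.snd

theorem posn_card (Y : Finset (J × Fin n)) (j : J) :
    (posn Y j).card = (Y.filter (fun p => p.1 = j)).card := by
  apply Finset.card_image_of_injOn
  intro a ha b hb hab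
  have h1 := (Finset.mem_filter.1 ha).2
  have h2 := (Finset.mem_filter.1 hb).2
  exact Prod.ext (h1.trans h2.symm) hab

theorem cs_update (e : J → Fin n → ℕ) (ω : Cfg J n) (j : J) (π : Equiv.Perm (Fin n))
    (s : Finset J) (hj : j ∉ s) (Y : Finset (J × Fin n)) :
    cs e (Function.update ω j π) (Y.filter (fun p => p.1 ∈ insert j s)) =
      cs e ω (Y.filter (fun p => p.1 ∈ s)) ∪ (posn Y j).image (fun a => e j (π a)) := by
  ext x
  simp only [cs, mem_image, mem_filter, mem_insert, mem_union, posn, col, Prod.exists]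
  constructor
  · rintro ⟨k, a, ⟨hY, hk | hk⟩, hx⟩
    · subst hk
      rw [Function.update_self] at hx
      exact Or.inr ⟨a, ⟨k, a, ⟨hY, rfl⟩, rfl⟩, hx⟩
    · have : k ≠ j := fun h => hj (h ▸ hk)
      rw [Function.update_of_ne this] at hx
      exact Or.inl ⟨k, a, ⟨hY, hk⟩, hx⟩
  · rintro (⟨k, a, ⟨hY, hk⟩, hx⟩ | ⟨a, ⟨k, a', ⟨hY, hk⟩, rfl⟩, hx⟩)
    · have : k ≠ j := fun h => hj (h ▸ hk)
      refine ⟨k, a, ⟨hY, Or.inr hk⟩, ?_⟩
      rw [Function.update_of_ne this]
      exact hx
    · subst hk
      refine ⟨k, a', ⟨hY, Or.inl rfl⟩, ?_⟩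
      rw [Function.update_self]
      exact hx

theorem main_pgf (e : J → Fin n → ℕ) (he : ∀ j, Function.Injective (e j)) (i : J)
    (Z Y : Finset (J × Fin n)) (hZ : ∀ p ∈ Z, p.1 = i) (s : Finset J) (hi : i ∉ s) :
    ∀ u : ℝ, 0 ≤ u → u ≤ 1 →
      ∑ ω : Cfg J n, u ^ (cs e ω Z \ cs e ω (Y.filter (fun p => p.1 ∈ s))).card ≤
        (1 - (1 - u) * ∏ j ∈ s, (1 - ((Y.filter (fun p => p.1 = j)).card : ℝ) / n)) ^ Z.card *
          Fintype.card (Cfg J n) := by
  have hZcard : ∀ ω : Cfg J n, (cs e ω Z).card = Z.card := by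
    intro ω
    apply Finset.card_image_of_injOn
    intro a ha b hb hab
    have h1 := hZ a ha
    have h2 := hZ b hb
    obtain ⟨a1, a2⟩ := a
    obtain ⟨b1, b2⟩ := b
    simp only at h1 h2
    subst h1 h2
    simp only [col] at hab
    have := (ω b1).injective (he b1 hab)
    rw [this]
  induction s using Finset.induction_on with
  | empty =>
    intro u hu0 hu1
    have h1 : Y.filter (fun p => p.1 ∈ (∅ : Finset J)) = ∅ := by simp
    have h2 : ∀ ω : Cfg J n, u ^ (cs e ω Z \ cs e ω (Y.filter
        (fun p => p.1 ∈ (∅ : Finset J)))).card = u ^ Z.card := by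
      intro ω
      rw [h1, cs, cs, Finset.image_empty, Finset.sdiff_empty]
      rw [← hZcard ω, cs]
    rw [Finset.sum_congr rfl fun ω _ => h2 ω]
    simp [mul_comm]
  | insert j s hj ih =>
    intro u hu0 hu1
    have hij : i ≠ j := fun h => hi (h ▸ Finset.mem_insert_self _ _)
    have his : i ∉ s := fun h => hi (Finset.mem_insert_of_mem h)
    set y : ℝ := ((Y.filter (fun p => p.1 = j)).card : ℝ) / n with hy
    have hy0 : 0 ≤ y := by positivity
    have hy1 : y ≤ 1 := by
      have h1 : (posn Y j).card ≤ n := by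
        have := Finset.card_le_univ (posn Y j)
        rwa [Fintype.card_fin] at this
      rw [posn_card] at h1
      apply div_le_one_of_le₀ _ (by positivity)
      exact_mod_cast h1
    have hcardpos : (0 : ℝ) < Fintype.card (Equiv.Perm (Fin n)) := by
      exact_mod_cast Fintype.card_pos
    have h2 := avg (fun ω => u ^ (cs e ω Z \ cs e ω (Y.filter
      (fun p => p.1 ∈ insert j s))).card) j
    have h3 : ∀ ω : Cfg J n, ∑ π : Equiv.Perm (Fin n),
        u ^ (cs e (Function.update ω j π) Z \ cs e (Function.update ω j π) (Y.filter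
          (fun p => p.1 ∈ insert j s))).card ≤
        (u + (1 - u) * y) ^ (cs e ω Z \ cs e ω (Y.filter (fun p => p.1 ∈ s))).card *
          (Fintype.card (Equiv.Perm (Fin n))) := by
      intro ω
      have h4 := perm_pgf (e j) (he j) (posn Y j) (cs e ω Z \ cs e ω (Y.filter (fun p => p.1 ∈ s)))
        u hu0 hu1
      rw [posn_card] at h4
      refine le_trans (le_of_eq ?_) h4
      refine Finset.sum_congr rfl fun π _ => ?_
      rw [cs_update e ω j π s hj Y]
      have h5 : cs e (Function.update ω j π) Z = cs e ω Z := by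
        apply Finset.image_congr
        intro p hp
        have h6 : p.1 ≠ j := by rw [hZ p hp]; exact hij
        simp only [col, Function.update_of_ne h6]
      rw [h5]
      congr 2
      ext x
      simp only [mem_sdiff, mem_union]
      tauto
    have h7 : (Fintype.card (Equiv.Perm (Fin n)) : ℝ) * ∑ ω : Cfg J n,
        u ^ (cs e ω Z \ cs e ω (Y.filter (fun p => p.1 ∈ insert j s))).card ≤
        (Fintype.card (Equiv.Perm (Fin n)) : ℝ) * ∑ ω : Cfg J n,
          (u + (1 - u) * y) ^ (cs e ω Z \ cs e ω (Y.filter (fun p => p.1 ∈ s))).card := by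
      rw [h2, Finset.mul_sum]
      refine Finset.sum_le_sum fun ω _ => ?_
      rw [mul_comm]
      exact h3 ω
    have h8 := le_of_mul_le_mul_left h7 hcardpos
    have h9 := ih his (u + (1 - u) * y) (by nlinarith) (by nlinarith)
    refine h8.trans (h9.trans (le_of_eq ?_))
    rw [Finset.prod_insert hj]
    congr 2
    ring

end PE2

open PE2 in
theorem stmt_PE2 : Stmt_PE2.{u} := by
  intro J _ n e i Z Y g he hZ hY
  set v : ℝ := ∏ j, (1 - ((Y.filter (fun p => p.1 = j)).card : ℝ) / n) with hv
  have hv1 : v = ∏ j ∈ univ.erase i, (1 - ((Y.filter (fun p => p.1 = j)).card : ℝ) / n) := by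
    rw [hv, ← Finset.mul_prod_erase univ _ (Finset.mem_univ i)]
    have : Y.filter (fun p => p.1 = i) = ∅ := by
      apply Finset.filter_eq_empty_iff.2
      intro p hp
      exact hY p hp
    rw [this]
    simp
  have hYf : Y.filter (fun p => p.1 ∈ univ.erase i) = Y := by
    apply Finset.filter_true_of_mem
    intro p hp
    simp [hY p hp]
  have hcard : (0 : ℝ) < Fintype.card (Cfg J n) := by exact_mod_cast Fintype.card_pos
  have hone : ∀ Z1 ⊆ Z, ((univ.filter (fun ω : Cfg J n => cs e ω Z1 ⊆ cs e ω Y)).card : ℝ) ≤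
      (1 - v) ^ Z1.card * Fintype.card (Cfg J n) := by
    intro Z1 hZ1
    have h1 := main_pgf e he i Z1 Y (fun p hp => hZ p (hZ1 hp)) (univ.erase i)
      (Finset.notMem_erase _ _) 0 le_rfl zero_le_one
    rw [hYf, ← hv1, sub_zero, one_mul] at h1
    refine le_trans (le_of_eq ?_) h1
    rw [← Finset.sum_boole]
    refine Finset.sum_congr rfl fun ω _ => ?_
    by_cases h : cs e ω Z1 ⊆ cs e ω Y
    · rw [if_pos h, Finset.sdiff_eq_empty_iff_subset.2 h]
      simp
    · rw [if_neg h, zero_pow]
      rw [Ne, Finset.card_eq_zero, Finset.sdiff_eq_empty_iff_subset]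
      exact h
  have hZinj : ∀ ω : Cfg J n, Set.InjOn (col e ω) (Z : Set (J × Fin n)) := by
    intro ω a ha b hb hab
    have h1 := hZ a ha
    have h2 := hZ b hb
    obtain ⟨a1, a2⟩ := a
    obtain ⟨b1, b2⟩ := b
    simp only at h1 h2
    subst h1 h2
    simp only [col] at hab
    have := (ω b1).injective (he b1 hab)
    rw [this]
  -- Markov
  have hmk : ∀ ω : Cfg J n, (if (cs e ω Z \ cs e ω Y).card < g then (1 : ℝ) else 0) ≤
      2 ^ g * ((1 / 2) ^ Z.card * ∑ Z1 ∈ Z.powerset,
        (if cs e ω Z1 ⊆ cs e ω Y then (1 : ℝ) else 0)) := by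
    intro ω
    have h1 : (1 / 2 : ℝ) ^ Z.card * ∑ Z1 ∈ Z.powerset,
        (if cs e ω Z1 ⊆ cs e ω Y then (1 : ℝ) else 0) =
        (1 / 2 : ℝ) ^ (cs e ω Z \ cs e ω Y).card := by
      have h2 := expand (cs e ω Z) (cs e ω Y) (1 / 2) (1 / 2)
      rw [show (1 / 2 + 1 / 2 : ℝ) = 1 by norm_num, one_pow, mul_one] at h2
      rw [h2, Finset.mul_sum]
      rw [show cs e ω Z = Z.image (col e ω) from rfl, Finset.powerset_image, Finset.sum_image]
      · refine Finset.sum_congr rfl fun Z1 hZ1 => ?_
        have h3 := Finset.mem_powerset.1 hZ1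
        rw [Finset.card_image_of_injOn (hZinj ω),
          Finset.card_image_of_injOn ((hZinj ω).mono (by exact_mod_cast h3)), ← pow_add,
          Nat.add_sub_cancel' (Finset.card_le_card h3)]
        rfl
      · intro a ha b hb hab
        have hab : a.image (col e ω) = b.image (col e ω) := hab
        have ha' := Finset.mem_powerset.1 (Finset.mem_coe.1 ha)
        have hb' := Finset.mem_powerset.1 (Finset.mem_coe.1 hb)
        ext x
        constructor
        · intro hx
          have h4 : col e ω x ∈ b.image (col e ω) := by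
            rw [← hab]; exact Finset.mem_image_of_mem _ hx
          obtain ⟨y, hy, hxy⟩ := Finset.mem_image.1 h4
          rw [← hZinj ω (Finset.mem_coe.2 (hb' hy)) (Finset.mem_coe.2 (ha' hx)) hxy]
          exact hy
        · intro hx
          have h4 : col e ω x ∈ a.image (col e ω) := by
            rw [hab]; exact Finset.mem_image_of_mem _ hx
          obtain ⟨y, hy, hxy⟩ := Finset.mem_image.1 h4
          rw [← hZinj ω (Finset.mem_coe.2 (ha' hy)) (Finset.mem_coe.2 (hb' hx)) hxy]
          exact hy
    rw [h1]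
    split_ifs with h
    · rw [one_div, inv_pow, ← div_eq_mul_inv, one_le_div (by positivity)]
      exact pow_le_pow_right₀ (by norm_num) h.le
    · positivity
  rw [pr, div_le_iff₀ hcard, ← Finset.sum_boole]
  refine le_trans (le_of_eq (Finset.sum_congr rfl (g := fun ω : Cfg J n =>
    (if (cs e ω Z \ cs e ω Y).card < g then (1 : ℝ) else 0)) fun ω _ => by congr)) ?_
  calc ∑ ω : Cfg J n, (if (cs e ω Z \ cs e ω Y).card < g then (1 : ℝ) else 0)
      ≤ ∑ ω : Cfg J n, 2 ^ g * ((1 / 2) ^ Z.card * ∑ Z1 ∈ Z.powerset,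
        (if cs e ω Z1 ⊆ cs e ω Y then (1 : ℝ) else 0)) := Finset.sum_le_sum fun ω _ => hmk ω
    _ = 2 ^ g * ((1 / 2) ^ Z.card * ∑ Z1 ∈ Z.powerset,
        ((univ.filter (fun ω : Cfg J n => cs e ω Z1 ⊆ cs e ω Y)).card : ℝ)) := by
        rw [← Finset.mul_sum, ← Finset.mul_sum, Finset.sum_comm]
        congr 2
        refine Finset.sum_congr rfl fun Z1 _ => ?_
        rw [Finset.sum_boole]
    _ ≤ 2 ^ g * ((1 / 2) ^ Z.card * ∑ Z1 ∈ Z.powerset,
        ((1 - v) ^ Z1.card * Fintype.card (Cfg J n))) := by
        gcongr with Z1 hZ1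
        exact hone Z1 (Finset.mem_powerset.1 hZ1)
    _ = 2 ^ g * (1 - v / 2) ^ Z.card * Fintype.card (Cfg J n) := by
        rw [← Finset.sum_mul]
        have h5 : ∑ Z1 ∈ Z.powerset, (1 - v) ^ Z1.card = (1 - v + 1) ^ Z.card := by
          rw [← Finset.sum_pow_mul_eq_add_pow]
          simp
        rw [h5, ← mul_assoc, ← mul_assoc, mul_assoc (2 ^ g : ℝ), ← mul_pow]
        congr 3
        ring

end Pool.Agent.Work.MP_db9399_all
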